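import Mathlib

namespace Pool.Agent.Results.MP_09543b_pr.Curve

open Finset

/-- the automaton distributional map -/
noncomputable def Psi {S : Type} [Fintype S] [DecidableEq S] (A : (S → ℕ) → S) (χ : ℕ → ℝ)
    (x : S → ℝ) (σ : S) : ℝ :=
  ∑' m, χ m * ∑ n ∈ (piAntidiag univ m).filter (fun n => A n = σ),
    ((m.factorial : ℝ) / ∏ τ, ((n τ).factorial : ℝ)) * ∏ τ, x τ ^ n τ

def A0 (n : Fin 4 → ℕ) : Fin 4 :=
  if n 0 + n 1 = 1 then (if n 0 = 1 then 2 else 3)
  else if n 1 = 2 ∨ (n 0 + n 1 = 0 ∧ 1 ≤ n 3) then 1 else 0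

theorem anti : piAntidiag (univ : Finset (Fin 4)) 2 =
    {![2,0,0,0], ![0,2,0,0], ![0,0,2,0], ![0,0,0,2], ![1,1,0,0], ![1,0,1,0], ![1,0,0,1],
      ![0,1,1,0], ![0,1,0,1], ![0,0,1,1]} := by
  ext n
  rw [mem_piAntidiag]
  constructor
  · rintro ⟨h, -⟩
    rw [Fin.sum_univ_four] at h
    have e : n = ![n 0, n 1, n 2, n 3] := by
      funext i; fin_cases i <;> rfl
    rw [e]
    generalize n 0 = a at *
    generalize n 1 = b at *
    generalize n 2 = c at *
    generalize n 3 = d at *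
    have ha : a ≤ 2 := by omega
    have hb : b ≤ 2 := by omega
    have hc : c ≤ 2 := by omega
    have hd : d ≤ 2 := by omega
    interval_cases a <;> interval_cases b <;> interval_cases c <;> interval_cases d <;>
      first | omega | decide
  · intro h
    refine ⟨?_, fun i _ => mem_univ i⟩
    revert n
    decide

theorem fixed (t : ℝ) :
    Psi A0 (fun m => if m = 2 then 1 else 0) ![(1 - t) / 2, t / 2, (1 - t) / 2, t / 2] =
      ![(1 - t) / 2, t / 2, (1 - t) / 2, t / 2] := by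
  funext σ
  unfold Psi
  rw [tsum_eq_single 2 (fun m hm => by simp [hm]), anti, sum_filter]
  repeat rw [sum_insert (by decide)]
  rw [sum_singleton]
  fin_cases σ <;> simp [A0, Fin.prod_univ_four, Nat.factorial] <;> ring

theorem result : ∃ (A : (Fin 4 → ℕ) → Fin 4) (χ : ℕ → ℝ), (∀ m, 0 ≤ χ m) ∧ HasSum χ 1 ∧
    (∃ m, 2 ≤ m ∧ 0 < χ m) ∧ {x | x ∈ stdSimplex ℝ (Fin 4) ∧ Psi A χ x = x}.Infinite := by
  refine ⟨A0, fun m => if m = 2 then 1 else 0, fun m => by dsimp only; split_ifs <;> norm_num,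
    hasSum_ite_eq 2 1, ⟨2, le_rfl, by simp⟩, ?_⟩
  have hinj : Set.InjOn (fun t : ℝ => (![(1 - t) / 2, t / 2, (1 - t) / 2, t / 2] : Fin 4 → ℝ))
      (Set.Icc 0 1) := by
    intro s _ t _ h
    have := congrFun h 1
    simp at this
    exact this
  refine ((Set.Icc_infinite (zero_lt_one' ℝ)).image hinj).mono ?_
  rintro _ ⟨t, ⟨h0, h1⟩, rfl⟩
  refine ⟨⟨fun i => ?_, ?_⟩, fixed t⟩
  · fin_cases i <;> simp <;> linarith
  · simp [Fin.sum_univ_four]; ring

end Pool.Agent.Results.MP_09543b_pr.Curve
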